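import Pool.Agent.K1H62.IV.Stm

/-!
# Piece IA: the two orders of an interval order without twins
-/

set_option autoImplicit false

open Pool.Agent.K1H62.IV
open Pool.Agent.W878.VC (SPO SLO)

namespace Pool.Agent.K1H25.IV

theorem ds_trans {P : ℕ → ℕ → Prop} {u v w : ℕ} (h : Ds P u v) (h' : Ds P v w) : Ds P u w :=
  fun x hx => h' x (h x hx)

theorem us_trans {P : ℕ → ℕ → Prop} {u v w : ℕ} (h : Us P u v) (h' : Us P v w) : Us P u w :=
  fun x hx => h' x (h x hx)

theorem ds_total {P : ℕ → ℕ → Prop} (h : Ivl P) (u v : ℕ) : Ds P u v ∨ Ds P v u := by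
  by_contra hc
  rw [not_or] at hc
  obtain ⟨h1, h2⟩ := hc
  unfold Ds at h1 h2
  push Not at h1 h2
  obtain ⟨a, ha, ha'⟩ := h1
  obtain ⟨c, hc, hc'⟩ := h2
  rcases h.2 a u c v ha hc with h3 | h3
  · exact ha' h3
  · exact hc' h3

theorem us_total {P : ℕ → ℕ → Prop} (h : Ivl P) (u v : ℕ) : Us P u v ∨ Us P v u := by
  by_contra hc
  rw [not_or] at hc
  obtain ⟨h1, h2⟩ := hc
  unfold Us at h1 h2
  push Not at h1 h2
  obtain ⟨a, ha, ha'⟩ := h1
  obtain ⟨c, hc, hc'⟩ := h2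
  rcases h.2 u a v c ha hc with h3 | h3
  · exact hc' h3
  · exact ha' h3

/-- Lexicographic orders. -/
theorem lex_slo (d s f : ℕ → ℕ → Prop) (dt : ∀ u v w, d u v → d v w → d u w)
    (st : ∀ u v w, s u v → s v w → s u w) (dl : ∀ u v, d u v ∨ d v u)
    (sl : ∀ u v, s u v ∨ s v u)
    (tf : ∀ u v, u ≠ v → ¬ (d u v ∧ d v u ∧ s u v ∧ s v u))
    (hf : ∀ u v, f u v ↔ (d u v ∧ ¬ d v u) ∨ (d u v ∧ d v u ∧ s u v ∧ ¬ s v u)) : SLO f := by
  refine { irr := ?_, trans := ?_, total := ?_ }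
  · intro u hu
    rw [hf] at hu
    tauto
  · intro u v w h1 h2
    rw [hf] at h1 h2 ⊢
    have a1 := dt u v w
    have a2 := dt w u v
    have a3 := dt v w u
    have a4 := dt w v u
    have b1 := st u v w
    have b2 := st w u v
    rcases h1 with ⟨h3, h4⟩ | ⟨h3, h4, h5, h6⟩
    · rcases h2 with ⟨h7, h8⟩ | ⟨h7, h8, h9, h10⟩
      · exact Or.inl ⟨a1 h3 h7, fun h => h8 (a2 h h3)⟩
      · exact Or.inl ⟨a1 h3 h7, fun h => h4 (a3 h7 h)⟩
    · rcases h2 with ⟨h7, h8⟩ | ⟨h7, h8, h9, h10⟩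
      · exact Or.inl ⟨a1 h3 h7, fun h => h8 (a2 h h3)⟩
      · exact Or.inr ⟨a1 h3 h7, a4 h8 h4, b1 h5 h9, fun h => h10 (b2 h h5)⟩
  · intro u v huv
    rw [hf, hf]
    have h1 := dl u v
    have h2 := sl u v
    have h3 := tf u v huv
    tauto

/-- **Piece IA.** -/
theorem t_IA : S_IA := by
  intro P hP hT
  refine ⟨?_, ?_, ?_, ?_, ?_, ?_⟩
  · refine lex_slo (Ds P) (fun u v => Us P v u) (f0 P) (fun u v w => ds_trans)
      (fun u v w h h' => us_trans h' h) (ds_total hP) (fun u v => us_total hP v u) ?_ ?_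
    · intro u v huv h
      exact hT u v huv ⟨h.1, h.2.1, h.2.2.2, h.2.2.1⟩
    · intro u v
      rfl
  · refine lex_slo (fun u v => Us P v u) (Ds P) (f1 P) (fun u v w h h' => us_trans h' h)
      (fun u v w => ds_trans) (fun u v => us_total hP v u) (ds_total hP) ?_ ?_
    · intro u v huv h
      exact hT u v huv ⟨h.2.2.1, h.2.2.2, h.2.1, h.1⟩
    · intro u v
      unfold f1
      tauto
  · intro a a' b h h'
    have h1 : Us P a' a := by
      unfold f1 at h
      tauto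
    exact h1 b h'
  · intro a b b' h h'
    have h1 : Ds P b b' := by
      unfold f0 at h
      tauto
    exact h1 a h'
  · intro u v h h'
    unfold f0 at h
    unfold f1 at h'
    unfold nst
    tauto
  · intro u v h h'
    refine ⟨?_, ?_, ?_⟩
    · rintro rfl
      unfold f0 at h
      tauto
    · unfold f1 at h'
      unfold nst
      tauto
    · unfold f0 at h
      unfold nst
      tauto

end Pool.Agent.K1H25.IV
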